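import Mathlib

/-!
# A defective cone without loops and coloops whose secant matroid is a Terracini union
-/

set_option autoImplicit false

namespace Pool.Agent.Results.MP_0cb83c_co.DefectiveTerracini

open MvPolynomial

universe u

section Defs

variable {K : Type u} [Field K] {N : ℕ}

/-- The Zariski closure of a subset of affine space. -/
def closure (S : Set (Fin N → K)) : Set (Fin N → K) := zeroLocus K (vanishingIdeal K S)

/-- `V` is an irreducible affine cone: a Zariski closed set whose vanishing ideal is prime and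
homogeneous (closed under taking homogeneous components). -/
structure IsIrreducibleCone (V : Set (Fin N → K)) : Prop where
  /-- `V` is closed -/
  closed : V = closure V
  /-- the vanishing ideal is prime -/
  prime : (vanishingIdeal K V).IsPrime
  /-- the vanishing ideal is homogeneous -/
  homogeneous : ∀ f ∈ vanishingIdeal K V, ∀ d, homogeneousComponent d f ∈ vanishingIdeal K V

/-- The dimension of `V` (with prime vanishing ideal): the transcendence degree of its coordinate
ring. -/
noncomputable def dim (V : Set (Fin N → K)) : Cardinal.{u} :=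
  Algebra.trdeg K (MvPolynomial (Fin N) K ⧸ vanishingIdeal K V)

/-- The secant variety `X^{2}`. -/
def Sec (V : Set (Fin N → K)) : Set (Fin N → K) := closure {z | ∃ x ∈ V, ∃ y ∈ V, z = x + y}

/-- `E` is independent in the algebraic matroid `M(V)`: no nonzero polynomial in the variables
`z_i`, `i ∈ E`, vanishes on `V`. -/
def Indep (V : Set (Fin N → K)) (E : Set (Fin N)) : Prop :=
  ∀ f ∈ vanishingIdeal K V, (f.vars : Set (Fin N)) ⊆ E → f = 0

end Defs

section General

variable {K : Type u} [Field K] {N : ℕ}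

theorem vanishingIdeal_closure (S : Set (Fin N → K)) :
    vanishingIdeal K (closure S) = vanishingIdeal K S := by
  apply le_antisymm
  · exact vanishingIdeal_anti_mono (zeroLocus_vanishingIdeal_le S)
  · exact le_vanishingIdeal_zeroLocus _

theorem closure_closure (S : Set (Fin N → K)) : closure S = closure (closure S) := by
  unfold closure
  rw [show vanishingIdeal K (zeroLocus K (vanishingIdeal K S)) = vanishingIdeal K S from
    vanishingIdeal_closure S]

theorem Indep.mono {V : Set (Fin N → K)} {E F : Set (Fin N)} (h : Indep V F) (hEF : E ⊆ F) :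
    Indep V E := fun f hf hv => h f hf (hv.trans hEF)

theorem indep_iff {R : Type u} [CommRing R] [Algebra K R] {V : Set (Fin N → K)}
    {P : Fin N → R} (hV : vanishingIdeal K V = RingHom.ker (aeval P : MvPolynomial (Fin N) K →ₐ[K] R))
    (E : Set (Fin N)) : Indep V E ↔ AlgebraicIndependent K (fun i : E => P i) := by
  constructor
  · intro h
    rw [algebraicIndependent_iff]
    intro g hg
    have h1 : rename ((↑) : E → Fin N) g ∈ vanishingIdeal K V := by
      rw [hV, RingHom.mem_ker, aeval_rename]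
      exact hg
    have h2 := h _ h1 (by
      classical
      intro i hi
      have h3 := vars_rename ((↑) : E → Fin N) g hi
      rw [Finset.mem_image] at h3
      obtain ⟨a, -, rfl⟩ := h3
      exact a.2)
    exact rename_injective _ Subtype.val_injective (h2.trans (map_zero _).symm)
  · intro h f hf hv
    obtain ⟨g, rfl⟩ := exists_rename_eq_of_vars_subset_range f ((↑) : E → Fin N)
      Subtype.val_injective (by simpa using hv)
    rw [hV, RingHom.mem_ker, aeval_rename] at hf
    rw [algebraicIndependent_iff] at h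
    rw [h g hf, map_zero]

theorem mem_vanishing_range {ι : Type u} {par : ι → (Fin N → K)} {f : MvPolynomial (Fin N) K} :
    f ∈ vanishingIdeal K (Set.range par) ↔ ∀ x, eval (par x) f = 0 := by
  rw [mem_vanishingIdeal_iff]
  constructor
  · intro h x
    exact h _ ⟨x, rfl⟩
  · rintro h _ ⟨x, rfl⟩
    exact h x

theorem quad_alg {R A : Type*} [CommRing R] [IsDomain R] [CommRing A] [IsDomain A] [Algebra R A]
    {y c w q : A} (hc : IsAlgebraic R c) (hw : IsAlgebraic R w) (hq : IsAlgebraic R q)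
    (c0 : c ≠ 0) (h : c * y ^ 2 - w * y + q = 0) : IsAlgebraic R y := by
  have key : IsAlgebraic (Subalgebra.algebraicClosure R A) y := by
    refine ⟨Polynomial.C (⟨c, hc⟩ : Subalgebra.algebraicClosure R A) * Polynomial.X ^ 2 -
      Polynomial.C (⟨w, hw⟩ : Subalgebra.algebraicClosure R A) * Polynomial.X +
      Polynomial.C (⟨q, hq⟩ : Subalgebra.algebraicClosure R A), ?_, ?_⟩
    · intro h0
      have h1 := congrArg (fun p => Polynomial.coeff p 2) h0
      simp [Polynomial.coeff_X, Polynomial.coeff_C] at h1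
      exact c0 (congrArg Subtype.val h1)
    · rw [map_add, map_sub, map_mul, map_mul, Polynomial.aeval_C, Polynomial.aeval_C,
          Polynomial.aeval_C, map_pow, Polynomial.aeval_X]
      exact h
  exact key.restrictScalars R

theorem cubic_alg {R A : Type*} [CommRing R] [IsDomain R] [CommRing A] [IsDomain A] [Algebra R A]
    {y c d w q : A} (hc : IsAlgebraic R c) (hd : IsAlgebraic R d) (hw : IsAlgebraic R w)
    (hq : IsAlgebraic R q) (c0 : c ≠ 0) (h : c * y ^ 3 + d * y ^ 2 + w * y + q = 0) :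
    IsAlgebraic R y := by
  have key : IsAlgebraic (Subalgebra.algebraicClosure R A) y := by
    refine ⟨Polynomial.C (⟨c, hc⟩ : Subalgebra.algebraicClosure R A) * Polynomial.X ^ 3 +
      Polynomial.C (⟨d, hd⟩ : Subalgebra.algebraicClosure R A) * Polynomial.X ^ 2 +
      Polynomial.C (⟨w, hw⟩ : Subalgebra.algebraicClosure R A) * Polynomial.X +
      Polynomial.C (⟨q, hq⟩ : Subalgebra.algebraicClosure R A), ?_, ?_⟩
    · intro h0
      have h1 := congrArg (fun p => Polynomial.coeff p 3) h0
      simp [Polynomial.coeff_X, Polynomial.coeff_C, Polynomial.coeff_X_pow] at h1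
      exact c0 (congrArg Subtype.val h1)
    · rw [map_add, map_add, map_add, map_mul, map_mul, map_mul, Polynomial.aeval_C,
        Polynomial.aeval_C, Polynomial.aeval_C, Polynomial.aeval_C, map_pow, map_pow,
        Polynomial.aeval_X]
      exact h
  exact key.restrictScalars R

/-- A family of `n` polynomials in `n` variables over which all variables are algebraic is
algebraically independent. -/
theorem indep_of {n : ℕ} {f : Fin n → MvPolynomial (Fin n) K}
    (h : ∀ i, IsAlgebraic (Algebra.adjoin K (Set.range f)) (X i : MvPolynomial (Fin n) K)) :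
    AlgebraicIndependent K f := by
  have halg : Algebra.IsAlgebraic (Algebra.adjoin K (Set.range f))
      (MvPolynomial (Fin n) K) := by
    constructor
    intro p
    induction p using MvPolynomial.induction_on with
    | C a =>
      have : (C a : MvPolynomial (Fin n) K) =
        algebraMap (Algebra.adjoin K (Set.range f)) _ (algebraMap K _ a) := rfl
      rw [this]
      exact isAlgebraic_algebraMap _
    | add p q hp hq => exact hp.add hq
    | mul_X p v hp => exact hp.mul (h v)
  refine (Algebra.IsAlgebraic.isTranscendenceBasis_of_lift_le_trdeg_of_finite K f ?_).1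
  rw [MvPolynomial.trdeg_of_isDomain]
  simp

theorem alg_congr {n : ℕ} {B : Subalgebra K (MvPolynomial (Fin n) K)}
    {p q : MvPolynomial (Fin n) K} (h : IsAlgebraic B p) (e : p = q) : IsAlgebraic B q := e ▸ h

theorem cancel {n : ℕ} {B : Subalgebra K (MvPolynomial (Fin n) K)}
    {p q : MvPolynomial (Fin n) K} (hp0 : p ≠ 0) (hp : IsAlgebraic B p)
    (h : IsAlgebraic B (p * q)) : IsAlgebraic B q :=
  IsAlgebraic.of_mul (mem_nonZeroDivisors_of_ne_zero hp0) hp h

end General

/-! ### The example -/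

section Example

variable (K : Type u) [Field K]

/-- The parametrisation `(a, at, at², at³, a(1+t+t²+t³), b, bv, bv²)`, with
`a, t, b, v = X 0, X 1, X 2, X 3`. -/
noncomputable def P : Fin 8 → MvPolynomial (Fin 4) K :=
  ![X 0, X 0 * X 1, X 0 * X 1 ^ 2, X 0 * X 1 ^ 3, X 0 * (1 + X 1 + X 1 ^ 2 + X 1 ^ 3),
    X 2, X 2 * X 3, X 2 * X 3 ^ 2]

/-- The parametrisation of the sums; `a, t, b, v, a', t', b', v' = X 0, …, X 7`. -/
noncomputable def Q : Fin 8 → MvPolynomial (Fin 8) K :=
  ![X 0 + X 4, X 0 * X 1 + X 4 * X 5, X 0 * X 1 ^ 2 + X 4 * X 5 ^ 2,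
    X 0 * X 1 ^ 3 + X 4 * X 5 ^ 3,
    X 0 * (1 + X 1 + X 1 ^ 2 + X 1 ^ 3) + X 4 * (1 + X 5 + X 5 ^ 2 + X 5 ^ 3),
    X 2 + X 6, X 2 * X 3 + X 6 * X 7, X 2 * X 3 ^ 2 + X 6 * X 7 ^ 2]

/-- the parametrised points -/
noncomputable def par (x : Fin 4 → K) : Fin 8 → K := fun i => eval x (P K i)

/-- The variety. -/
def V : Set (Fin 8 → K) := closure (Set.range (par K))

variable {K}

theorem vanishing_V [Infinite K] :
    vanishingIdeal K (V K) =
      RingHom.ker (aeval (P K) : MvPolynomial (Fin 8) K →ₐ[K] MvPolynomial (Fin 4) K) := by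
  unfold V
  rw [vanishingIdeal_closure]
  ext f
  rw [mem_vanishing_range, RingHom.mem_ker]
  have key : ∀ x, eval (par K x) f = eval x (aeval (P K) f) := by
    intro x
    rw [show (eval x (aeval (P K) f)) = ((eval x).comp (aeval (P K) :
      MvPolynomial (Fin 8) K →ₐ[K] MvPolynomial (Fin 4) K).toRingHom) f from rfl]
    congr 1
    apply ringHom_ext
    · intro r
      simp
    · intro i
      simp [par]
  constructor
  · intro h
    apply MvPolynomial.funext
    intro x
    rw [← key, h x, map_zero]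
  · intro h x
    rw [key, h, map_zero]

theorem eval_add_point {N : ℕ} (f : MvPolynomial (Fin N) K) (x y : Fin N → K) :
    eval x (aeval (fun i => X i + C (y i) : Fin N → MvPolynomial (Fin N) K) f) =
      eval (x + y) f := by
  rw [show (eval x (aeval (fun i => X i + C (y i) : Fin N → MvPolynomial (Fin N) K) f)) =
    ((eval x).comp (aeval (fun i => X i + C (y i)) :
      MvPolynomial (Fin N) K →ₐ[K] MvPolynomial (Fin N) K).toRingHom) f from rfl]
  congr 1
  apply ringHom_ext
  · intro r
    simp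
  · intro i
    simp

theorem vanishing_sums {S : Set (Fin 8 → K)} {f : MvPolynomial (Fin 8) K}
    (h : ∀ x ∈ S, ∀ y ∈ S, eval (x + y) f = 0) :
    ∀ x ∈ closure S, ∀ y ∈ closure S, eval (x + y) f = 0 := by
  have h1 : ∀ x ∈ closure S, ∀ y ∈ S, eval (x + y) f = 0 := by
    intro x hx y hy
    rw [← eval_add_point]
    apply hx
    intro z hz
    have := h z hz y hy
    rw [← eval_add_point] at this
    exact this
  intro x hx y hy
  rw [add_comm, ← eval_add_point]
  apply hy
  intro z hz
  have := h1 x hx z hz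
  rw [add_comm, ← eval_add_point] at this
  exact this

theorem eval_Q (z : Fin 8 → K) (i : Fin 8) : eval z (Q K i) =
    par K ![z 0, z 1, z 2, z 3] i + par K ![z 4, z 5, z 6, z 7] i := by
  fin_cases i <;> simp [Q, P, par]

theorem vanishing_Sec [Infinite K] :
    vanishingIdeal K (Sec (V K)) =
      RingHom.ker (aeval (Q K) : MvPolynomial (Fin 8) K →ₐ[K] MvPolynomial (Fin 8) K) := by
  unfold Sec
  rw [vanishingIdeal_closure]
  ext f
  rw [RingHom.mem_ker]
  have key : ∀ z, eval (par K ![z 0, z 1, z 2, z 3] + par K ![z 4, z 5, z 6, z 7]) f =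
      eval z (aeval (Q K) f) := by
    intro z
    rw [show (eval z (aeval (Q K) f)) = ((eval z).comp (aeval (Q K) :
      MvPolynomial (Fin 8) K →ₐ[K] MvPolynomial (Fin 8) K).toRingHom) f from rfl]
    congr 1
    apply ringHom_ext
    · intro r
      simp
    · intro i
      simp [eval_Q]
  constructor
  · intro h
    apply MvPolynomial.funext
    intro z
    rw [← key, map_zero]
    exact h _ ⟨_, zeroLocus_vanishingIdeal_le _ ⟨_, rfl⟩, _,
      zeroLocus_vanishingIdeal_le _ ⟨_, rfl⟩, rfl⟩
  · rintro h _ ⟨x, hx, y, hy, rfl⟩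
    refine vanishing_sums ?_ x hx y hy
    rintro _ ⟨x, rfl⟩ _ ⟨y, rfl⟩
    have := key ![x 0, x 1, x 2, x 3, y 0, y 1, y 2, y 3]
    rw [h, map_zero] at this
    rw [← this]
    congr 2
    congr 1
    · congr 1
      funext i
      fin_cases i <;> rfl
    · congr 1
      funext i
      fin_cases i <;> rfl

theorem eval_scale {N : ℕ} {f : MvPolynomial (Fin N) K} {d : ℕ} (hf : f.IsHomogeneous d)
    (c : K) (z : Fin N → K) : eval (fun i => c * z i) f = c ^ d * eval z f := by
  rw [eval_eq', eval_eq', Finset.mul_sum]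
  refine Finset.sum_congr rfl fun m hm => ?_
  have h1 : ∑ i, m i = d := by
    have := hf (mem_support_iff.1 hm)
    rw [← this]
    simp [Finsupp.weight_apply, Finsupp.sum_fintype]
  simp only [mul_pow, Finset.prod_mul_distrib]
  rw [Finset.prod_pow_eq_pow_sum, h1]
  ring

theorem homogeneous_V [Infinite K] (f : MvPolynomial (Fin 8) K)
    (hf : f ∈ vanishingIdeal K (V K)) (d : ℕ) :
    homogeneousComponent d f ∈ vanishingIdeal K (V K) := by
  unfold V at hf ⊢
  rw [vanishingIdeal_closure, mem_vanishing_range] at hf ⊢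
  intro x
  have h1 : ∀ c : K, eval (fun i => c * par K x i) f = 0 := by
    intro c
    rw [← hf ![c * x 0, x 1, c * x 2, x 3]]
    congr 2
    funext i
    fin_cases i <;> simp [P, par] <;> ring
  by_cases hd : f.totalDegree < d
  · rw [homogeneousComponent_eq_zero _ _ hd, map_zero]
  · have h2 : (∑ e ∈ Finset.range (f.totalDegree + 1),
        Polynomial.C (eval (par K x) (homogeneousComponent e f)) * Polynomial.X ^ e :
          Polynomial K) = 0 := by
      apply Polynomial.funext
      intro c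
      have h3 := h1 c
      conv_lhs at h3 => rw [← sum_homogeneousComponent f]
      rw [map_sum] at h3
      rw [Polynomial.eval_finsetSum, Polynomial.eval_zero, ← h3]
      refine Finset.sum_congr rfl fun e _ => ?_
      rw [eval_scale (homogeneousComponent_isHomogeneous e f), Polynomial.eval_mul,
        Polynomial.eval_C, Polynomial.eval_pow, Polynomial.eval_X, mul_comm]
    have h4 := congrArg (fun p => Polynomial.coeff p d) h2
    simp only [Polynomial.finsetSum_coeff, Polynomial.coeff_C_mul, Polynomial.coeff_X_pow,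
      mul_ite, mul_one, mul_zero, Finset.sum_ite_eq, Polynomial.coeff_zero] at h4
    rw [if_pos (Finset.mem_range.2 (by omega))] at h4
    exact h4

theorem cone_V [Infinite K] : IsIrreducibleCone (V K) := by
  refine ⟨closure_closure _, ?_, homogeneous_V⟩
  rw [vanishing_V]
  exact RingHom.ker_isPrime _

/-! ### Independent sets of `M(V)` -/

theorem indep_V_iff [Infinite K] (E : Set (Fin 8)) :
    Indep (V K) E ↔ AlgebraicIndependent K (fun i : E => P K i) := indep_iff vanishing_V E

theorem indep_Sec_iff [Infinite K] (E : Set (Fin 8)) :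
    Indep (Sec (V K)) E ↔ AlgebraicIndependent K (fun i : E => Q K i) := indep_iff vanishing_Sec E

theorem indep_range [Infinite K] {n : ℕ} (e : Fin n → Fin 8) (he : Function.Injective e)
    (h : AlgebraicIndependent K (P K ∘ e)) : Indep (V K) (Set.range e) := by
  rw [indep_V_iff, ← algebraicIndependent_equiv (Equiv.ofInjective e he)]
  exact h

/-- The data for one of the planes. -/
theorem ind4 (e : Fin 4 → Fin 8)
    (H : ∀ B : Subalgebra K (MvPolynomial (Fin 4) K), (∀ j, IsAlgebraic B (P K (e j))) →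
      ∀ i, IsAlgebraic B (X i : MvPolynomial (Fin 4) K)) : AlgebraicIndependent K (P K ∘ e) := by
  apply indep_of
  apply H
  intro j
  exact isAlgebraic_algebraMap (R := Algebra.adjoin K (Set.range (P K ∘ e)))
    (⟨_, Algebra.subset_adjoin ⟨j, rfl⟩⟩)

theorem all4 {p : Fin 4 → Prop} (h0 : p 0) (h1 : p 1) (h2 : p 2) (h3 : p 3) : ∀ i, p i := by
  intro i
  fin_cases i
  · exact h0
  · exact h1
  · exact h2
  · exact h3

section Pairs

variable {B : Subalgebra K (MvPolynomial (Fin 4) K)}

/-- `a, t` are algebraic over `B` -/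
def Good1 (B : Subalgebra K (MvPolynomial (Fin 4) K)) : Prop :=
  IsAlgebraic B (X 0 : MvPolynomial (Fin 4) K) ∧ IsAlgebraic B (X 1 : MvPolynomial (Fin 4) K)

/-- `b, v` are algebraic over `B` -/
def Good2 (B : Subalgebra K (MvPolynomial (Fin 4) K)) : Prop :=
  IsAlgebraic B (X 2 : MvPolynomial (Fin 4) K) ∧ IsAlgebraic B (X 3 : MvPolynomial (Fin 4) K)

theorem q56 (h1 : IsAlgebraic B (P K 5)) (h2 : IsAlgebraic B (P K 6)) : Good2 B :=
  ⟨h1, cancel (X_ne_zero 2) h1 h2⟩

theorem q57 (h1 : IsAlgebraic B (P K 5)) (h2 : IsAlgebraic B (P K 7)) : Good2 B :=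
  ⟨h1, (cancel (q := X 3 ^ 2) (X_ne_zero 2) h1 h2).of_pow (by norm_num)⟩

theorem q67 (h1 : IsAlgebraic B (P K 6)) (h2 : IsAlgebraic B (P K 7)) : Good2 B := by
  have h3 : IsAlgebraic B (X 3 : MvPolynomial (Fin 4) K) :=
    cancel (mul_ne_zero (X_ne_zero 2) (X_ne_zero 3)) h1 (alg_congr h2 (by simp [P]; ring))
  exact ⟨cancel (X_ne_zero 3) h3 (alg_congr h1 (by simp [P]; ring)), h3⟩

theorem p01 (h1 : IsAlgebraic B (P K 0)) (h2 : IsAlgebraic B (P K 1)) : Good1 B :=
  ⟨h1, cancel (X_ne_zero 0) h1 h2⟩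

theorem p12 (h1 : IsAlgebraic B (P K 1)) (h2 : IsAlgebraic B (P K 2)) : Good1 B := by
  have h3 : IsAlgebraic B (X 1 : MvPolynomial (Fin 4) K) :=
    cancel (mul_ne_zero (X_ne_zero 0) (X_ne_zero 1)) h1 (alg_congr h2 (by simp [P]; ring))
  exact ⟨cancel (X_ne_zero 1) h3 (alg_congr h1 (by simp [P]; ring)), h3⟩

theorem p13 (h1 : IsAlgebraic B (P K 1)) (h2 : IsAlgebraic B (P K 3)) : Good1 B := by
  have h3 : IsAlgebraic B (X 1 ^ 2 : MvPolynomial (Fin 4) K) :=
    cancel (mul_ne_zero (X_ne_zero 0) (X_ne_zero 1)) h1 (alg_congr h2 (by simp [P]; ring))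
  have h3 := h3.of_pow (by norm_num)
  exact ⟨cancel (X_ne_zero 1) h3 (alg_congr h1 (by simp [P]; ring)), h3⟩

theorem p23 (h1 : IsAlgebraic B (P K 2)) (h2 : IsAlgebraic B (P K 3)) : Good1 B := by
  have h3 : IsAlgebraic B (X 1 : MvPolynomial (Fin 4) K) :=
    cancel (mul_ne_zero (X_ne_zero 0) (pow_ne_zero 2 (X_ne_zero 1))) h1
      (alg_congr h2 (by simp [P]; ring))
  exact ⟨cancel (pow_ne_zero 2 (X_ne_zero 1)) (h3.pow 2) (alg_congr h1 (by simp [P]; ring)), h3⟩

theorem p04 (h1 : IsAlgebraic B (P K 0)) (h2 : IsAlgebraic B (P K 4)) : Good1 B := by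
  have h3 : IsAlgebraic B (X 1 : MvPolynomial (Fin 4) K) := by
    have h4 : IsAlgebraic B (1 + X 1 + X 1 ^ 2 + X 1 ^ 3 : MvPolynomial (Fin 4) K) :=
      cancel (X_ne_zero 0) h1 h2
    refine cubic_alg (c := 1) (d := 1) (w := 1)
      (q := 1 - (1 + X 1 + X 1 ^ 2 + X 1 ^ 3 : MvPolynomial (Fin 4) K)) ?_ ?_ ?_ ?_ one_ne_zero
      (by ring)
    · exact isAlgebraic_one
    · exact isAlgebraic_one
    · exact isAlgebraic_one
    · exact isAlgebraic_one.sub h4
  exact ⟨h1, h3⟩

theorem one_add_ne : (1 + X 1 + X 1 ^ 2 : MvPolynomial (Fin 4) K) ≠ 0 := by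
  intro h
  have := congrArg (eval (fun _ => (0 : K))) h
  simp at this

theorem p34 (h1 : IsAlgebraic B (P K 3)) (h2 : IsAlgebraic B (P K 4)) : Good1 B := by
  have h3 : IsAlgebraic B (X 1 : MvPolynomial (Fin 4) K) := by
    refine cubic_alg (c := P K 4 - P K 3) (d := -P K 3) (w := -P K 3) (q := -P K 3)
      (h2.sub h1) h1.neg h1.neg h1.neg ?_ ?_
    · have : P K 4 - P K 3 = X 0 * (1 + X 1 + X 1 ^ 2) := by simp [P]; ring
      rw [this]
      exact mul_ne_zero (X_ne_zero 0) one_add_ne
    · simp [P]; ring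
  exact ⟨cancel (pow_ne_zero 3 (X_ne_zero 1)) (h3.pow 3) (alg_congr h1 (by simp [P]; ring)), h3⟩

end Pairs

theorem ind_of [Infinite K] (i j k l : Fin 8) (hinj : Function.Injective ![i, j, k, l])
    (h1 : ∀ B : Subalgebra K (MvPolynomial (Fin 4) K), IsAlgebraic B (P K i) →
      IsAlgebraic B (P K j) → Good1 B)
    (h2 : ∀ B : Subalgebra K (MvPolynomial (Fin 4) K), IsAlgebraic B (P K k) →
      IsAlgebraic B (P K l) → Good2 B) : Indep (V K) (Set.range ![i, j, k, l]) := by
  refine indep_range _ hinj (ind4 _ fun B h => ?_)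
  obtain ⟨g0, g1⟩ := h1 B (h 0) (h 1)
  obtain ⟨g2, g3⟩ := h2 B (h 2) (h 3)
  exact all4 g0 g1 g2 g3

theorem card_le_four [Infinite K] {T : Set (Fin 8)} (h : Indep (V K) T) : T.ncard ≤ 4 := by
  rw [indep_V_iff] at h
  have h1 := h.lift_cardinalMk_le_trdeg
  rw [MvPolynomial.trdeg_of_isDomain] at h1
  have h2 := Cardinal.toNat_le_toNat h1 (by simp)
  rw [← Nat.card_coe_set_eq]
  have h3 : Cardinal.toNat (Cardinal.mk T) ≤ 4 := by simpa using h2
  exact h3

theorem maximal_of [Infinite K] {e : Fin 4 → Fin 8} (he : Function.Injective e)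
    (h : Indep (V K) (Set.range e)) : Maximal (Indep (V K)) (Set.range e) := by
  refine ⟨h, fun T hT hle => ?_⟩
  have h1 : (Set.range e).ncard = 4 := by
    rw [← Nat.card_coe_set_eq, Nat.card_congr (Equiv.ofInjective e he).symm]
    simp
  have h2 := Set.eq_of_subset_of_ncard_le hle (by rw [h1]; exact card_le_four hT)
  exact h2.symm.le

/-- the first five coordinates, as elements of `K[a, t]` -/
noncomputable def P1 (K : Type u) [Field K] : Fin 5 → MvPolynomial (Fin 2) K :=
  ![X 0, X 0 * X 1, X 0 * X 1 ^ 2, X 0 * X 1 ^ 3, X 0 * (1 + X 1 + X 1 ^ 2 + X 1 ^ 3)]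

theorem rename_P1 (i : Fin 5) :
    rename (Fin.castLE (by norm_num : 2 ≤ 4)) (P1 K i) = P K (Fin.castLE (by norm_num) i) := by
  fin_cases i <;> simp [P1, P]

open Classical in
theorem card_first [Infinite K] {T : Set (Fin 8)} (h : Indep (V K) T) :
    (Finset.univ.filter fun i : Fin 5 => (Fin.castLE (by norm_num) i : Fin 8) ∈ T).card ≤ 2 := by
  rw [indep_V_iff] at h
  have h0 := h.comp (fun i : {i : Fin 5 // (Fin.castLE (by norm_num) i : Fin 8) ∈ T} =>
    (⟨Fin.castLE (by norm_num) i.1, i.2⟩ : T)) (by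
      intro a b hab
      have h3 := congrArg (fun x : T => (x : Fin 8)) hab
      exact Subtype.ext (Fin.castLE_injective (by norm_num : 5 ≤ 8) h3))
  have h1 : AlgebraicIndependent K
      (fun i : {i : Fin 5 // (Fin.castLE (by norm_num) i : Fin 8) ∈ T} => P1 K i.1) := by
    apply AlgebraicIndependent.of_comp (rename (Fin.castLE (by norm_num : 2 ≤ 4)) :
      MvPolynomial (Fin 2) K →ₐ[K] MvPolynomial (Fin 4) K)
    have : (rename (Fin.castLE (by norm_num : 2 ≤ 4)) :
        MvPolynomial (Fin 2) K →ₐ[K] MvPolynomial (Fin 4) K) ∘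
        (fun i : {i : Fin 5 // (Fin.castLE (by norm_num) i : Fin 8) ∈ T} => P1 K i.1) =
        (fun i : T => P K i) ∘ (fun i : {i : Fin 5 // (Fin.castLE (by norm_num) i : Fin 8) ∈ T} =>
          (⟨Fin.castLE (by norm_num) i.1, i.2⟩ : T)) := by
      funext i
      exact rename_P1 i.1
    rw [this]
    exact h0
  have h2 := h1.lift_cardinalMk_le_trdeg
  rw [MvPolynomial.trdeg_of_isDomain] at h2
  have h3 := Cardinal.toNat_le_toNat h2 (by simp)
  rw [← Fintype.card_subtype]
  simpa using h3

theorem le4_cases : ∀ i : Fin 8, i.1 ≤ 4 → i = 0 ∨ i = 1 ∨ i = 2 ∨ i = 3 ∨ i = 4 := by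
  decide

theorem Q_rel : Q K 4 = Q K 0 + Q K 1 + Q K 2 + Q K 3 := by
  simp [Q]
  ring

theorem all8 {p : Fin 8 → Prop} (h0 : p 0) (h1 : p 1) (h2 : p 2) (h3 : p 3) (h4 : p 4)
    (h5 : p 5) (h6 : p 6) (h7 : p 7) : ∀ i, p i := by
  intro i
  fin_cases i
  · exact h0
  · exact h1
  · exact h2
  · exact h3
  · exact h4
  · exact h5
  · exact h6
  · exact h7

theorem sub_X_ne {i j : Fin 8} (h : i ≠ j) : (X i - X j : MvPolynomial (Fin 8) K) ≠ 0 :=
  sub_ne_zero.2 fun h' => h (X_injective h')

theorem all_algebraic {B : Subalgebra K (MvPolynomial (Fin 8) K)}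
    (h : ∀ i, IsAlgebraic B (Q K i)) (h7 : IsAlgebraic B (X 7 : MvPolynomial (Fin 8) K)) :
    ∀ i, IsAlgebraic B (X i : MvPolynomial (Fin 8) K) := by
  have hc : (Q K 0 * Q K 2 - Q K 1 ^ 2 : MvPolynomial (Fin 8) K) ≠ 0 := by
    have : (Q K 0 * Q K 2 - Q K 1 ^ 2 : MvPolynomial (Fin 8) K) = X 0 * X 4 * (X 1 - X 5) ^ 2 := by
      simp [Q]; ring
    rw [this]
    exact mul_ne_zero (mul_ne_zero (X_ne_zero 0) (X_ne_zero 4))
      (pow_ne_zero 2 (sub_X_ne (by decide)))
  have c1 := ((h 0).mul (h 2)).sub ((h 1).pow 2)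
  have c2 := ((h 0).mul (h 3)).sub ((h 1).mul (h 2))
  have c3 := ((h 1).mul (h 3)).sub ((h 2).pow 2)
  have ht : IsAlgebraic B (X 1 : MvPolynomial (Fin 8) K) := by
    refine quad_alg c1 c2 c3 hc ?_
    simp [Q]; ring
  have ht' : IsAlgebraic B (X 5 : MvPolynomial (Fin 8) K) := by
    refine quad_alg c1 c2 c3 hc ?_
    simp [Q]; ring
  have ha : IsAlgebraic B (X 0 : MvPolynomial (Fin 8) K) := by
    refine cancel (sub_X_ne (K := K) (i := 1) (j := 5) (by decide)) (ht.sub ht')
      (alg_congr ((h 1).sub (ht'.mul (h 0))) ?_)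
    simp [Q]; ring
  have ha' : IsAlgebraic B (X 4 : MvPolynomial (Fin 8) K) :=
    alg_congr ((h 0).sub ha) (by simp [Q])
  have hb0 : IsAlgebraic B (X 2 * (X 3 - X 7) : MvPolynomial (Fin 8) K) :=
    alg_congr ((h 6).sub (h7.mul (h 5))) (by simp [Q]; ring)
  have hv : IsAlgebraic B (X 3 : MvPolynomial (Fin 8) K) := by
    refine cancel (p := X 2 * (X 3 - X 7)) (mul_ne_zero (X_ne_zero 2) (sub_X_ne (by decide))) hb0
      (alg_congr ((h 7).sub (h7.mul (h 6))) ?_)
    simp [Q]; ring
  have hb : IsAlgebraic B (X 2 : MvPolynomial (Fin 8) K) := by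
    refine cancel (sub_X_ne (K := K) (i := 3) (j := 7) (by decide)) (hv.sub h7)
      (alg_congr hb0 (by ring))
  have hb' : IsAlgebraic B (X 6 : MvPolynomial (Fin 8) K) :=
    alg_congr ((h 5).sub hb) (by simp [Q])
  exact all8 ha ht hb hv ha' ht' hb' h7

theorem indep_Sec_compl [Infinite K] {i₀ : Fin 8} (hi : i₀.1 ≤ 4) :
    Indep (Sec (V K)) {i | i ≠ i₀} := by
  rw [indep_Sec_iff]
  have h1 : AlgebraicIndependent K (Function.update (Q K) i₀ (X 7)) := by
    apply indep_of
    have hR : ∀ i, IsAlgebraic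
        (Algebra.adjoin K (Set.range (Function.update (Q K) i₀ (X 7))))
        (Function.update (Q K) i₀ (X 7) i) := fun i =>
      isAlgebraic_algebraMap (R := Algebra.adjoin K (Set.range (Function.update (Q K) i₀ (X 7))))
        (⟨_, Algebra.subset_adjoin ⟨i, rfl⟩⟩)
    generalize Algebra.adjoin K (Set.range (Function.update (Q K) i₀ (X 7))) = B at hR
    have h7 : IsAlgebraic B (X 7 : MvPolynomial (Fin 8) K) := by
      have := hR i₀
      rwa [Function.update_self] at this
    have hQ : ∀ i, i ≠ i₀ → IsAlgebraic B (Q K i) := by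
      intro i hne
      have := hR i
      rwa [Function.update_of_ne hne] at this
    refine all_algebraic ?_ h7
    have key : IsAlgebraic B (Q K i₀) := by
      have hcases := le4_cases i₀ hi
      rcases hcases with rfl | rfl | rfl | rfl | rfl
      · exact alg_congr ((((hQ 4 (by decide)).sub (hQ 1 (by decide))).sub (hQ 2 (by decide))).sub
          (hQ 3 (by decide))) (by rw [Q_rel]; ring)
      · exact alg_congr ((((hQ 4 (by decide)).sub (hQ 0 (by decide))).sub (hQ 2 (by decide))).sub
          (hQ 3 (by decide))) (by rw [Q_rel]; ring)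
      · exact alg_congr ((((hQ 4 (by decide)).sub (hQ 0 (by decide))).sub (hQ 1 (by decide))).sub
          (hQ 3 (by decide))) (by rw [Q_rel]; ring)
      · exact alg_congr ((((hQ 4 (by decide)).sub (hQ 0 (by decide))).sub (hQ 1 (by decide))).sub
          (hQ 2 (by decide))) (by rw [Q_rel]; ring)
      · exact alg_congr ((((hQ 0 (by decide)).add (hQ 1 (by decide))).add (hQ 2 (by decide))).add
          (hQ 3 (by decide))) Q_rel.symm
    intro i
    by_cases h : i = i₀
    · rw [h]; exact key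
    · exact hQ i h
  have h2 := h1.comp (fun i : {i | i ≠ i₀} => (i : Fin 8)) Subtype.val_injective
  have h3 : (Function.update (Q K) i₀ (X 7)) ∘ (fun i : {i | i ≠ i₀} => (i : Fin 8)) =
      fun i : {i | i ≠ i₀} => Q K i := by
    funext i
    exact Function.update_of_ne i.2 _ _
  rwa [h3] at h2

theorem not_indep_Sec [Infinite K] {E : Set (Fin 8)} (h : Indep (Sec (V K)) E) :
    ∃ i₀ : Fin 8, i₀.1 ≤ 4 ∧ i₀ ∉ E := by
  by_contra hno
  push Not at hno
  rw [indep_Sec_iff] at h
  have h1 := h.comp (fun i : Fin 5 =>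
    (⟨Fin.castLE (by norm_num) i, hno _ (Nat.lt_succ_iff.1 i.2)⟩ : E)) (by
      intro a b hab
      have h3 := congrArg (fun x : E => (x : Fin 8)) hab
      exact Fin.castLE_injective (by norm_num : 5 ≤ 8) h3)
  rw [algebraicIndependent_iff] at h1
  have h2 := h1 (X 4 - (X 0 + X 1 + X 2 + X 3)) (by
    simp only [map_sub, map_add, aeval_X]
    exact sub_eq_zero.2 Q_rel)
  have h3 := congrArg (eval (![0, 0, 0, 0, 1] : Fin 5 → K)) h2
  simp at h3

theorem pair_decomp [Infinite K] {i₀ : Fin 8} (hi : i₀.1 ≤ 4) {E : Set (Fin 8)} (hE : i₀ ∉ E) :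
    ∃ I₁ I₂, Indep (V K) I₁ ∧ Indep (V K) I₂ ∧ E = I₁ ∪ I₂ := by
  have hcov : ∀ (e f : Fin 4 → Fin 8), Indep (V K) (Set.range e) → Indep (V K) (Set.range f) →
      (∀ i, i ≠ i₀ → (∃ j, e j = i) ∨ (∃ j, f j = i)) →
      ∃ I₁ I₂, Indep (V K) I₁ ∧ Indep (V K) I₂ ∧ E = I₁ ∪ I₂ := by
    intro e f he hf hc
    refine ⟨E ∩ Set.range e, E ∩ Set.range f, he.mono Set.inter_subset_right,
      hf.mono Set.inter_subset_right, ?_⟩
    rw [← Set.inter_union_distrib_left]
    symm
    rw [Set.inter_eq_left]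
    intro i hiE
    rcases hc i (by rintro rfl; exact hE hiE) with h | h
    · exact Or.inl h
    · exact Or.inr h
  have hcases := le4_cases i₀ hi
  rcases hcases with rfl | rfl | rfl | rfl | rfl
  · exact hcov _ _ (ind_of 1 2 5 6 (by decide) (fun B => p12) (fun B => q56))
      (ind_of 3 4 6 7 (by decide) (fun B => p34) (fun B => q67)) (by decide)
  · exact hcov _ _ (ind_of 0 4 5 6 (by decide) (fun B => p04) (fun B => q56))
      (ind_of 2 3 6 7 (by decide) (fun B => p23) (fun B => q67)) (by decide)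
  · exact hcov _ _ (ind_of 0 4 5 6 (by decide) (fun B => p04) (fun B => q56))
      (ind_of 1 3 6 7 (by decide) (fun B => p13) (fun B => q67)) (by decide)
  · exact hcov _ _ (ind_of 0 4 5 6 (by decide) (fun B => p04) (fun B => q56))
      (ind_of 1 2 6 7 (by decide) (fun B => p12) (fun B => q67)) (by decide)
  · exact hcov _ _ (ind_of 0 1 5 6 (by decide) (fun B => p01) (fun B => q56))
      (ind_of 2 3 6 7 (by decide) (fun B => p23) (fun B => q67)) (by decide)

theorem dim_V [Infinite K] : dim (V K) = 4 := by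
  unfold dim
  rw [vanishing_V]
  apply le_antisymm
  · have h := trdeg_le_of_injective (R := K) (Ideal.kerLiftAlg (aeval (P K) :
      MvPolynomial (Fin 8) K →ₐ[K] MvPolynomial (Fin 4) K)) (Ideal.kerLiftAlg_injective _)
    refine h.trans ?_
    rw [MvPolynomial.trdeg_of_isDomain]
    simp
  · have h1 : AlgebraicIndependent K (P K ∘ ![0, 1, 5, 6]) := ind4 _ fun B h => by
      obtain ⟨g0, g1⟩ := p01 (h 0) (h 1)
      obtain ⟨g2, g3⟩ := q56 (h 2) (h 3)
      exact all4 g0 g1 g2 g3
    have h2 : AlgebraicIndependent K (fun j : Fin 4 => Ideal.Quotient.mk (RingHom.ker (aeval (P K) :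
        MvPolynomial (Fin 8) K →ₐ[K] MvPolynomial (Fin 4) K))
          (X ((![0, 1, 5, 6] : Fin 4 → Fin 8) j))) := by
      apply AlgebraicIndependent.of_comp (Ideal.kerLiftAlg (aeval (P K) :
        MvPolynomial (Fin 8) K →ₐ[K] MvPolynomial (Fin 4) K))
      have h4 : (Ideal.kerLiftAlg (aeval (P K) :
          MvPolynomial (Fin 8) K →ₐ[K] MvPolynomial (Fin 4) K)) ∘ (fun j : Fin 4 =>
            Ideal.Quotient.mk (RingHom.ker (aeval (P K) :
              MvPolynomial (Fin 8) K →ₐ[K] MvPolynomial (Fin 4) K))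
                (X ((![0, 1, 5, 6] : Fin 4 → Fin 8) j))) = P K ∘ ![0, 1, 5, 6] := by
        funext j
        exact (Ideal.kerLiftAlg_mk _ _).trans (aeval_X _ _)
      rw [h4]
      exact h1
    have h3 := h2.lift_cardinalMk_le_trdeg
    simpa using h3

theorem dim_Sec [Infinite K] : dim (Sec (V K)) = 7 := by
  have hind := (indep_Sec_iff _).1 (indep_Sec_compl (K := K) (i₀ := 4) (by decide))
  unfold dim
  rw [vanishing_Sec]
  apply le_antisymm
  · have hs : Function.Surjective (aeval (fun j : Fin 7 =>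
        Ideal.Quotient.mk (RingHom.ker (aeval (Q K) :
          MvPolynomial (Fin 8) K →ₐ[K] MvPolynomial (Fin 8) K))
            (X ((![0, 1, 2, 3, 5, 6, 7] : Fin 7 → Fin 8) j))) :
        MvPolynomial (Fin 7) K →ₐ[K] (MvPolynomial (Fin 8) K ⧸ (RingHom.ker (aeval (Q K) :
          MvPolynomial (Fin 8) K →ₐ[K] MvPolynomial (Fin 8) K)))) := by
      intro q
      obtain ⟨q, rfl⟩ := Ideal.Quotient.mk_surjective q
      refine ⟨aeval (![X 0, X 1, X 2, X 3, X 0 + X 1 + X 2 + X 3, X 4, X 5, X 6] :
        Fin 8 → MvPolynomial (Fin 7) K) q, ?_⟩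
      have h1 : (aeval (fun j : Fin 7 =>
          Ideal.Quotient.mk (RingHom.ker (aeval (Q K) :
            MvPolynomial (Fin 8) K →ₐ[K] MvPolynomial (Fin 8) K))
              (X ((![0, 1, 2, 3, 5, 6, 7] : Fin 7 → Fin 8) j))) :
          MvPolynomial (Fin 7) K →ₐ[K] (MvPolynomial (Fin 8) K ⧸ (RingHom.ker (aeval (Q K) :
            MvPolynomial (Fin 8) K →ₐ[K] MvPolynomial (Fin 8) K)))).comp
          (aeval (![X 0, X 1, X 2, X 3, X 0 + X 1 + X 2 + X 3, X 4, X 5, X 6] :
            Fin 8 → MvPolynomial (Fin 7) K)) = Ideal.Quotient.mkₐ K _ := by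
        apply MvPolynomial.algHom_ext
        intro i
        rw [AlgHom.comp_apply, aeval_X]
        fin_cases i
        · exact aeval_X _ _
        · exact aeval_X _ _
        · exact aeval_X _ _
        · exact aeval_X _ _
        · change aeval _ (X 0 + X 1 + X 2 + X 3) = _
          rw [map_add, map_add, map_add, aeval_X, aeval_X, aeval_X, aeval_X]
          change Ideal.Quotient.mk _ (X 0) + Ideal.Quotient.mk _ (X 1) +
            Ideal.Quotient.mk _ (X 2) + Ideal.Quotient.mk _ (X 3) = Ideal.Quotient.mk _ (X 4)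
          rw [← map_add, ← map_add, ← map_add, Ideal.Quotient.eq, RingHom.mem_ker, map_sub,
            map_add, map_add, map_add, aeval_X, aeval_X, aeval_X, aeval_X, aeval_X, Q_rel,
            sub_self]
        · exact aeval_X _ _
        · exact aeval_X _ _
        · exact aeval_X _ _
      exact DFunLike.congr_fun h1 q
    have h := trdeg_le_of_surjective _ hs
    refine h.trans ?_
    rw [MvPolynomial.trdeg_of_isDomain]
    simp
  · have h2 : AlgebraicIndependent K (fun j : {i : Fin 8 | i ≠ 4} =>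
        Ideal.Quotient.mk (RingHom.ker (aeval (Q K) :
        MvPolynomial (Fin 8) K →ₐ[K] MvPolynomial (Fin 8) K)) (X j.1)) := by
      apply AlgebraicIndependent.of_comp (Ideal.kerLiftAlg (aeval (Q K) :
        MvPolynomial (Fin 8) K →ₐ[K] MvPolynomial (Fin 8) K))
      have h4 : (Ideal.kerLiftAlg (aeval (Q K) :
          MvPolynomial (Fin 8) K →ₐ[K] MvPolynomial (Fin 8) K)) ∘
            (fun j : {i : Fin 8 | i ≠ 4} => Ideal.Quotient.mk (RingHom.ker (aeval (Q K) :
              MvPolynomial (Fin 8) K →ₐ[K] MvPolynomial (Fin 8) K)) (X j.1)) =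
            fun j : {i : Fin 8 | i ≠ 4} => Q K j := by
        funext j
        exact (Ideal.kerLiftAlg_mk _ _).trans (aeval_X _ _)
      rw [h4]
      exact hind
    have h3 := h2.lift_cardinalMk_le_trdeg
    have h5 : Cardinal.mk {i : Fin 8 | i ≠ 4} = 7 := by
      rw [Cardinal.mk_fintype]
      have : Fintype.card {i : Fin 8 | i ≠ 4} = 7 := by decide
      rw [this]
      norm_num
    rw [h5] at h3
    simpa using h3

end Example

/-- Over every algebraically closed field of characteristic zero there is an irreducible affine cone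
`X` in affine `8`-space which is defective, with `M(X^{2}) = 2 M(X)`, and such that `M(X)` has
neither a loop nor a coloop. -/
theorem result (K : Type u) [Field K] [IsAlgClosed K] [CharZero K] :
    ∃ X : Set (Fin 8 → K), IsIrreducibleCone X ∧ dim X = 4 ∧ dim (Sec X) = 7 ∧
      (∀ E, Indep (Sec X) E ↔ ∃ I₁ I₂, Indep X I₁ ∧ Indep X I₂ ∧ E = I₁ ∪ I₂) ∧
      (∀ i, ∃ E, Indep X E ∧ i ∈ E) ∧ (∀ i, ∃ B, Maximal (Indep X) B ∧ i ∉ B) := by
  have b1 : Maximal (Indep (V K)) (Set.range ![1, 2, 5, 6]) := maximal_of (by decide)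
    (ind_of 1 2 5 6 (by decide) (fun B => p12) (fun B => q56))
  have b2 : Maximal (Indep (V K)) (Set.range ![3, 4, 6, 7]) := maximal_of (by decide)
    (ind_of 3 4 6 7 (by decide) (fun B => p34) (fun B => q67))
  have b3 : Maximal (Indep (V K)) (Set.range ![0, 1, 5, 7]) := maximal_of (by decide)
    (ind_of 0 1 5 7 (by decide) (fun B => p01) (fun B => q57))
  refine ⟨V K, cone_V, dim_V, dim_Sec, ?_, ?_, ?_⟩
  · intro E
    constructor
    · intro h
      obtain ⟨i₀, h1, h2⟩ := not_indep_Sec h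
      exact pair_decomp h1 h2
    · rintro ⟨I₁, I₂, h1, h2, rfl⟩
      classical
      have c1 := card_first h1
      have c2 := card_first h2
      have h3 : ∃ i : Fin 5, (Fin.castLE (by norm_num) i : Fin 8) ∉ I₁ ∪ I₂ := by
        by_contra hno
        push Not at hno
        have h4 : (Finset.univ : Finset (Fin 5)) ⊆
            (Finset.univ.filter fun i : Fin 5 => (Fin.castLE (by norm_num) i : Fin 8) ∈ I₁) ∪
            (Finset.univ.filter fun i : Fin 5 => (Fin.castLE (by norm_num) i : Fin 8) ∈ I₂) := by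
          intro i _
          rw [Finset.mem_union, Finset.mem_filter, Finset.mem_filter]
          rcases hno i with h | h
          · exact Or.inl ⟨Finset.mem_univ _, h⟩
          · exact Or.inr ⟨Finset.mem_univ _, h⟩
        have h5 := (Finset.card_le_card h4).trans (Finset.card_union_le _ _)
        rw [Finset.card_univ, Fintype.card_fin] at h5
        omega
      obtain ⟨i, hi⟩ := h3
      refine (indep_Sec_compl (i₀ := Fin.castLE (by norm_num) i) (Nat.lt_succ_iff.1 i.2)).mono ?_
      rintro j hj rfl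
      exact hi hj
  · have hcov : ∀ i : Fin 8, (∃ j, (![1, 2, 5, 6] : Fin 4 → Fin 8) j = i) ∨
        (∃ j, (![3, 4, 6, 7] : Fin 4 → Fin 8) j = i) ∨
        (∃ j, (![0, 1, 5, 7] : Fin 4 → Fin 8) j = i) := by decide
    intro i
    rcases hcov i with h | h | h
    · exact ⟨_, b1.1, h⟩
    · exact ⟨_, b2.1, h⟩
    · exact ⟨_, b3.1, h⟩
  · have hcov : ∀ i : Fin 8, (¬ ∃ j, (![1, 2, 5, 6] : Fin 4 → Fin 8) j = i) ∨
        (¬ ∃ j, (![3, 4, 6, 7] : Fin 4 → Fin 8) j = i) ∨
        (¬ ∃ j, (![0, 1, 5, 7] : Fin 4 → Fin 8) j = i) := by decide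
    intro i
    rcases hcov i with h | h | h
    · exact ⟨_, b1, h⟩
    · exact ⟨_, b2, h⟩
    · exact ⟨_, b3, h⟩

end Pool.Agent.Results.MP_0cb83c_co.DefectiveTerracini
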